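import Mathlib
import Pool.Agent.H27.KottA

set_option autoImplicit false

namespace Pool.Agent.Results.MP_7f7e2f_an.SpreadGap

open Filter Topology ZeroAtInfty

section Defs

variable (X : Type) [NormedAddCommGroup X]

/-- The Kottman constant. -/
noncomputable def kott : ℝ :=
  sSup {r | ∃ x : ℕ → X, (∀ n, ‖x n‖ ≤ 1) ∧
    r = ⨅ p : {p : ℕ × ℕ // p.1 ≠ p.2}, ‖x p.1.1 - x p.1.2‖}

/-- The symmetric Kottman constant. -/
noncomputable def kottS : ℝ :=
  sSup {r | ∃ x : ℕ → X, (∀ n, ‖x n‖ ≤ 1) ∧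
    r = ⨅ p : {p : ℕ × ℕ // p.1 ≠ p.2}, min ‖x p.1.1 - x p.1.2‖ ‖x p.1.1 + x p.1.2‖}

/-- `Z` is a spreading model of `X`. -/
def IsSpreadingModel [NormedSpace ℝ X] (Z : Type) [NormedAddCommGroup Z] [NormedSpace ℝ Z] : Prop :=
  ∃ (y : ℕ → X) (e : ℕ → Z), (∀ n, ‖y n‖ = 1) ∧
    (∀ s : ℕ → ℕ, StrictMono s → ¬ CauchySeq (y ∘ s)) ∧
    Dense (Submodule.span ℝ (Set.range e) : Set Z) ∧
    ∀ (k : ℕ) (a : Fin k → ℝ) (ε : ℝ), 0 < ε → ∃ N : ℕ, ∀ n : Fin k → ℕ, StrictMono n →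
      (∀ i, N ≤ n i) → |‖∑ i, a i • y (n i)‖ - ‖∑ i, a i • e i‖| < ε

end Defs

section Aux

open Pool.Agent.H27.KottA

def J : Type := ℕ ⊕ {F : Finset (Finset ℕ) // Adm F}

def fam : J → Finset (Finset ℕ)
  | Sum.inl k => {{k}}
  | Sum.inr F => F.1

noncomputable def wt : J → ℝ
  | Sum.inl _ => 1
  | Sum.inr _ => 1 / 2

abbrev Y : Type := lp (fun j : J => EuclideanSpace ℝ (fam j)) ⊤

def co (φ : Y) (k : ℕ) : ℝ := φ (Sum.inl k) ⟨{k}, Finset.mem_singleton_self _⟩

theorem avg_add (E : Finset ℕ) (x y : ℕ → ℝ) : avg E (x + y) = avg E x + avg E y := by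
  simp [avg, Finset.sum_add_distrib, add_div]

theorem avg_smul (E : Finset ℕ) (c : ℝ) (x : ℕ → ℝ) : avg E (c • x) = c * avg E x := by
  simp [avg, ← Finset.mul_sum, mul_div_assoc]

noncomputable def XS : Submodule ℝ Y where
  carrier := {φ | ∀ (j : J) (E : fam j), φ j E = wt j * avg E (co φ)}
  add_mem' := fun {φ ψ} hφ hψ j E => by
    have : co (φ + ψ) = co φ + co ψ := rfl
    rw [this, avg_add, mul_add, ← hφ j E, ← hψ j E]; rfl
  zero_mem' := fun j E => by
    have : co 0 = 0 := rfl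
    rw [this, avg_zero (x := 0) fun _ _ => rfl, mul_zero]; rfl
  smul_mem' := fun c φ hφ j E => by
    have : co (c • φ) = c • co φ := rfl
    rw [this, avg_smul, mul_left_comm, ← hφ j E]; rfl

theorem ev_cont (j : J) (E : fam j) : Continuous fun φ : Y => φ j E := by
  have h1 : Continuous fun φ : Y => φ j := by
    refine (LipschitzWith.of_dist_le_mul (K := 1) fun φ ψ => ?_).continuous
    rw [dist_eq_norm, dist_eq_norm, NNReal.coe_one, one_mul]
    exact lp.norm_apply_le_norm ENNReal.top_ne_zero (φ - ψ) j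
  exact (EuclideanSpace.proj E : EuclideanSpace ℝ (fam j) →L[ℝ] ℝ).continuous.comp h1

theorem XS_closed : IsClosed (XS : Set Y) := by
  have : (XS : Set Y) = ⋂ (j : J) (E : fam j), {φ | φ j E = wt j * avg E (co φ)} := by
    ext φ; simp only [Set.mem_iInter]; rfl
  rw [this]
  refine isClosed_iInter fun j => isClosed_iInter fun E => isClosed_eq (ev_cont j E) ?_
  refine continuous_const.mul ?_
  have hc : ∀ k, Continuous fun φ : Y => co φ k := fun k =>
    ev_cont (Sum.inl k) ⟨{k}, Finset.mem_singleton_self _⟩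
  unfold avg
  exact (continuous_finsetSum _ fun k _ => hc k).div_const _

def X : Type := XS

noncomputable instance : NormedAddCommGroup X := inferInstanceAs (NormedAddCommGroup XS)

noncomputable instance : NormedSpace ℝ X := inferInstanceAs (NormedSpace ℝ XS)

instance : CompleteSpace X := XS_closed.completeSpace_coe

def cx : X →ₗ[ℝ] (ℕ → ℝ) where
  toFun φ := co (Subtype.val φ)
  map_add' _ _ := rfl
  map_smul' _ _ := rfl

theorem norm_comp (x : ℕ → ℝ) (j : J) (v : EuclideanSpace ℝ (fam j))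
    (hv : ∀ E, v E = wt j * avg E x) : ‖v‖ ^ 2 = wt j ^ 2 * Q (fam j) x := by
  rw [EuclideanSpace.real_norm_sq_eq, Q, Finset.mul_sum, ← Finset.sum_coe_sort (fam j)]
  exact Finset.sum_congr rfl fun E _ => by rw [hv, mul_pow]

theorem comp_le {x : ℕ → ℝ} {c : ℝ} (h : Bd x c) (j : J) (v : EuclideanSpace ℝ (fam j))
    (hv : ∀ E, v E = wt j * avg E x) : ‖v‖ ≤ c := by
  have hc : 0 ≤ c := (abs_nonneg _).trans (h.1 0)
  refine le_of_sq_le_sq (a := ‖v‖) ?_ hc |> fun h => h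
  rw [norm_comp x j v hv]
  rcases j with k | F
  · simp only [wt, fam, Q, Finset.sum_singleton, one_pow, one_mul]
    exact avg_le hc fun i _ => h.1 i
  · have := h.2 F.1 F.2
    simp only [wt, fam]
    linarith

theorem norm_le_of_Bd (φ : X) {c : ℝ} (h : Bd (cx φ) c) : ‖φ‖ ≤ c :=
  lp.norm_le_of_forall_le ((abs_nonneg _).trans (h.1 0)) fun j => comp_le h j _ (φ.2 j)

theorem Bd_of_norm_le (φ : X) {c : ℝ} (h : ‖φ‖ ≤ c) : Bd (cx φ) c := by
  have h1 : ∀ j, wt j ^ 2 * Q (fam j) (cx φ) ≤ c ^ 2 := by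
    intro j
    rw [← norm_comp (cx φ) j _ (φ.2 j)]
    have : ‖(Subtype.val φ : Y) j‖ ≤ c := (lp.norm_apply_le_norm ENNReal.top_ne_zero _ j).trans h
    gcongr
  refine ⟨fun k => ?_, fun F hF => ?_⟩
  · have := h1 (Sum.inl k)
    simp only [wt, fam, Q, Finset.sum_singleton, one_pow, one_mul, avg, Finset.card_singleton,
      Nat.cast_one, div_one] at this
    exact abs_le_of_sq_le_sq this ((norm_nonneg _).trans h)
  · have := h1 (Sum.inr ⟨F, hF⟩)
    simp only [wt, fam] at this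
    linarith

theorem exists_of_Bd {x : ℕ → ℝ} {c : ℝ} (h : Bd x c) : ∃ φ : X, cx φ = x ∧ ‖φ‖ ≤ c := by
  let f : ∀ j : J, EuclideanSpace ℝ (fam j) := fun j => WithLp.toLp 2 fun E => wt j * avg E x
  have hf : Memℓp f ⊤ := memℓp_infty ⟨c, by
    rintro _ ⟨j, rfl⟩
    exact comp_le h j _ fun _ => rfl⟩
  have hco : co ⟨f, hf⟩ = x := by
    funext k
    change wt (Sum.inl k) * avg {k} x = _
    simp [wt, avg]
  let φ : X := (⟨⟨f, hf⟩, fun j E => by rw [hco]⟩ : XS)
  have : cx φ = x := hco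
  exact ⟨φ, this, norm_le_of_Bd φ (this ▸ h)⟩

theorem Bd_add {x y : ℕ → ℝ} {c d : ℝ} (hx : Bd x c) (hy : Bd y d) : Bd (x + y) (c + d) := by
  obtain ⟨φ, rfl, h1⟩ := exists_of_Bd hx
  obtain ⟨ψ, rfl, h2⟩ := exists_of_Bd hy
  rw [← map_add]
  exact Bd_of_norm_le _ ((norm_add_le _ _).trans (add_le_add h1 h2))

theorem Bd_sub {x y : ℕ → ℝ} {c d : ℝ} (hx : Bd x c) (hy : Bd y d) : Bd (x - y) (c + d) := by
  obtain ⟨φ, rfl, h1⟩ := exists_of_Bd hx
  obtain ⟨ψ, rfl, h2⟩ := exists_of_Bd hy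
  rw [← map_sub]
  exact Bd_of_norm_le _ ((norm_sub_le _ _).trans (add_le_add h1 h2))

theorem Bd_single (k : ℕ) (t M : ℝ) (h : |t| ≤ M) : Bd (Pi.single k t) M := by
  refine sparse (S := {k}) (N := k) (fun i => ?_) (fun i hi => ?_) (by simp) (by simp)
  · by_cases hi : i = k
    · subst hi; simpa using h
    · simpa [hi] using (abs_nonneg t).trans h
  · exact Pi.single_eq_of_ne (by simpa using hi) _

def P (a : ℕ) (w : ℕ → ℝ) : ℕ → ℝ := fun k => if k < a then w k else 0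

theorem Bd_P (w : ℕ → ℝ) (δ : ℝ) (a : ℕ) (h : ∀ k < a, |w k| ≤ δ) : Bd (P a w) (a * δ) := by
  induction a with
  | zero =>
    have : P 0 w = Pi.single 0 0 := by funext k; simp [P]
    rw [this]; exact Bd_single 0 0 _ (by simp)
  | succ a ih =>
    have : P (a + 1) w = P a w + Pi.single a (w a) := by
      funext k
      rcases lt_trichotomy k a with h | rfl | h
      · simp [P, h, h.ne, Nat.lt_succ_of_lt h]
      · simp [P]
      · simp [P, h.ne', not_lt.2 h.le, not_lt.2 (Nat.succ_le_of_lt h)]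
    rw [this]
    push_cast
    rw [add_mul, one_mul]
    exact Bd_add (ih fun k hk => h k (Nat.lt_succ_of_lt hk))
      (Bd_single _ _ _ (h a (Nat.lt_succ_self a)))

theorem near {u : ℕ → ℕ → ℝ} {x : ℕ → ℝ} (h : Tendsto u atTop (𝓝 x)) (a : ℕ) {ε : ℝ}
    (hε : 0 < ε) : ∀ᶠ n in atTop, Bd (P a (u n - x)) ε := by
  have h1 : ∀ᶠ n in atTop, ∀ k ∈ Finset.range a, |u n k - x k| < ε / (a + 1) := by
    rw [eventually_all_finset]
    intro k _
    exact Metric.tendsto_nhds.1 (tendsto_pi_nhds.1 h k) _ (by positivity)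
  refine h1.mono fun n hn => ?_
  obtain ⟨φ, hφ, h2⟩ := exists_of_Bd (Bd_P (u n - x) (ε / (a + 1)) a
    fun k hk => (hn k (Finset.mem_range.2 hk)).le)
  rw [← hφ]
  refine Bd_of_norm_le _ (h2.trans ?_)
  rw [← mul_div_assoc, div_le_iff₀ (by positivity)]
  nlinarith

theorem close_pair (φ : ℕ → X) (hφ : ∀ n, ‖φ n‖ ≤ 1) {ε : ℝ} (hε : 0 < ε) :
    ∃ n m, n ≠ m ∧ ‖φ n - φ m‖ ≤ 8 / 5 + 5 * ε := by
  have hB : ∀ n, Bd (cx (φ n)) 1 := fun n => Bd_of_norm_le _ (hφ n)
  obtain ⟨x, -, s, hs, hx⟩ := (isCompact_univ_pi fun _ : ℕ => isCompact_Icc (a := (-1 : ℝ)) (b := 1)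
    ).tendsto_subseq (x := fun n => cx (φ n)) fun n k _ => abs_le.1 ((hB n).1 k)
  have hxB : Bd x 1 := Bd_lim (fun n => hB (s n)) hx
  obtain ⟨a, ha⟩ := tail hxB hε
  obtain ⟨n, hn⟩ := (near hx a hε).exists
  obtain ⟨b', hb'⟩ := tail (hB (s n)) hε
  obtain ⟨m, hm, hmn⟩ := ((near hx (max a b') hε).and (eventually_gt_atTop n)).exists
  refine ⟨s n, s m, (hs hmn).ne, norm_le_of_Bd _ ?_⟩
  have key := Bd_sub (Bd_sub (Bd_add (Bd_add (block (hB (s n)) (hB (s m)) (le_max_left a b')) hn)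
    (hb' _ (le_max_right a b'))) hm) (Bd_sub (ha a le_rfl) (ha _ (le_max_left a b')))
  have e : (8 / 5 : ℝ) + ε + ε + ε + (ε + ε) = 8 / 5 + 5 * ε := by ring
  rw [e] at key
  convert key using 1
  funext k
  have hab := le_max_left a b'
  generalize max a b' = b at hab
  simp only [map_sub, Pi.sub_apply, Pi.add_apply, blk, P, R, Function.comp]
  by_cases h1 : k < a
  · simp [h1, lt_of_lt_of_le h1 hab, not_le.2 h1, not_le.2 (lt_of_lt_of_le h1 hab)]
  · by_cases h2 : k < b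
    · simp [h1, h2, not_lt.1 h1, not_le.2 h2]; ring
    · simp [h1, h2, not_lt.1 h1, not_lt.1 h2]; ring

theorem kott_X : kott X ≤ 8 / 5 := by
  refine csSup_le ⟨_, fun _ => 0, fun _ => by simp, rfl⟩ ?_
  rintro r ⟨φ, hφ, rfl⟩
  refine le_of_forall_pos_le_add fun ε hε => ?_
  obtain ⟨n, m, hnm, h⟩ := close_pair φ hφ (ε := ε / 5) (by positivity)
  refine (ciInf_le ⟨0, ?_⟩ (⟨(n, m), hnm⟩ : {p : ℕ × ℕ // p.1 ≠ p.2})).trans (h.trans (by linarith))
  rintro _ ⟨p, rfl⟩
  exact norm_nonneg _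

def Z : Type := C₀(ℕ, ℝ)

noncomputable instance : NormedAddCommGroup Z := inferInstanceAs (NormedAddCommGroup C₀(ℕ, ℝ))

noncomputable instance : NormedSpace ℝ Z := inferInstanceAs (NormedSpace ℝ C₀(ℕ, ℝ))

instance : CompleteSpace Z := inferInstanceAs (CompleteSpace C₀(ℕ, ℝ))

def Z.c (F : Z) : C₀(ℕ, ℝ) := F

def cz : Z →ₗ[ℝ] (ℕ → ℝ) where
  toFun φ := φ.c
  map_add' _ _ := rfl
  map_smul' _ _ := rfl

theorem Z_le (F : Z) (p : ℕ) : |cz F p| ≤ ‖F‖ := F.c.toBCF.norm_coe_le_norm p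

theorem Z_norm_le (F : Z) (C : ℝ) (hC : 0 ≤ C) (h : ∀ p, |cz F p| ≤ C) : ‖F‖ ≤ C :=
  (BoundedContinuousFunction.norm_le (f := F.c.toBCF) hC).2 h

theorem exists_Z (w : ℕ → ℝ) (N : ℕ) (h : ∀ k, N ≤ k → w k = 0) : ∃ F : Z, cz F = w := by
  refine ⟨(⟨⟨w, continuous_of_discreteTopology⟩, ?_⟩ : C₀(ℕ, ℝ)), rfl⟩
  rw [cocompact_eq_cofinite, Nat.cofinite_eq_atTop]
  exact tendsto_const_nhds.congr' (eventually_atTop.2 ⟨N, fun k hk => (h k hk).symm⟩)

theorem kottS_Z : 2 ≤ kottS Z := by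
  have : ∀ n : ℕ, ∃ F : Z, cz F = fun k => if k ≤ n then 1 else if k = n + 1 then -1 else 0 :=
    fun n => exists_Z _ (n + 2) fun k hk => by rw [if_neg (by omega), if_neg (by omega)]
  choose z hz using this
  have : Nonempty {p : ℕ × ℕ // p.1 ≠ p.2} := ⟨⟨(0, 1), by simp⟩⟩
  refine le_csSup_of_le ⟨2, ?_⟩ ⟨z, fun n => ?_, rfl⟩ (le_ciInf fun p => le_min ?_ ?_)
  · rintro _ ⟨x, hx, rfl⟩
    refine (ciInf_le ⟨0, ?_⟩ (⟨(0, 1), by simp⟩ : {p : ℕ × ℕ // p.1 ≠ p.2})).trans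
      ((min_le_left _ _).trans ((norm_sub_le _ _).trans (by linarith [hx 0, hx 1])))
    rintro _ ⟨p, rfl⟩
    exact le_min (norm_nonneg _) (norm_nonneg _)
  · refine Z_norm_le _ _ zero_le_one fun k => ?_
    rw [hz]; dsimp only; split_ifs <;> simp
  · obtain ⟨⟨n, m⟩, hnm⟩ := p
    have key : ∀ n m, n < m → 2 ≤ ‖z n - z m‖ := by
      intro n m h
      refine le_trans (le_of_eq ?_) (Z_le _ (n + 1))
      rw [map_sub, Pi.sub_apply, hz, hz]
      simp [Nat.succ_le_of_lt h]; norm_num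
    rcases lt_or_gt_of_ne hnm with h | h
    · exact key n m h
    · rw [norm_sub_rev]; exact key m n h
  · refine le_trans (le_of_eq ?_) (Z_le _ 0)
    rw [map_add, Pi.add_apply, hz, hz]
    simp; norm_num

theorem sum_single_apply {k : ℕ} (a : Fin k → ℝ) (n : Fin k → ℕ) (hn : Function.Injective n)
    (i : Fin k) : (∑ j, a j • (Pi.single (n j) 1 : ℕ → ℝ)) (n i) = a i := by
  rw [Finset.sum_apply, Finset.sum_eq_single i]
  · simp
  · intro j _ hj
    simp [Pi.single_eq_of_ne (hn.ne hj).symm]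
  · simp

theorem sum_single_zero {k : ℕ} (a : Fin k → ℝ) (n : Fin k → ℕ) (t : ℕ) (ht : ∀ i, n i ≠ t) :
    (∑ j, a j • (Pi.single (n j) 1 : ℕ → ℝ)) t = 0 := by
  rw [Finset.sum_apply]
  exact Finset.sum_eq_zero fun j _ => by simp [Pi.single_eq_of_ne (ht j).symm]

theorem sum_single_le {k : ℕ} (a : Fin k → ℝ) (n : Fin k → ℕ) (hn : Function.Injective n)
    (M : ℝ) (hM : 0 ≤ M) (h : ∀ i, |a i| ≤ M) (t : ℕ) :
    |(∑ j, a j • (Pi.single (n j) 1 : ℕ → ℝ)) t| ≤ M := by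
  by_cases ht : ∃ i, n i = t
  · obtain ⟨i, rfl⟩ := ht
    rw [sum_single_apply a n hn]; exact h i
  · rw [sum_single_zero a n t fun i hi => ht ⟨i, hi⟩]; simpa using hM

theorem spreading : IsSpreadingModel X Z := by
  choose y hy hy' using fun k => exists_of_Bd (Bd_single k 1 1 (by simp))
  choose e he using fun k => exists_Z (Pi.single k 1) (k + 1)
    fun i hi => Pi.single_eq_of_ne (by omega) _
  refine ⟨y, e, fun n => le_antisymm (hy' n) ?_, fun s hs hc => ?_, ?_, fun k a ε hε => ?_⟩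
  · have := (Bd_of_norm_le (y n) le_rfl).1 n
    rw [hy] at this; simpa using this
  · obtain ⟨N, hN⟩ := Metric.cauchySeq_iff'.1 hc 1 one_pos
    have h1 := hN (N + 1) (Nat.le_succ N)
    rw [dist_eq_norm] at h1
    have := (Bd_of_norm_le (y (s (N + 1)) - y (s N)) le_rfl).1 (s (N + 1))
    rw [map_sub, hy, hy, Pi.sub_apply, Pi.single_eq_same,
      Pi.single_eq_of_ne (hs (Nat.lt_succ_self N)).ne'] at this
    simp only [Function.comp] at h1
    norm_num at this
    linarith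
  · rw [Metric.dense_iff]
    intro F ε hε
    have h1 := zero_at_infty F.c
    rw [cocompact_eq_cofinite, Nat.cofinite_eq_atTop] at h1
    obtain ⟨N, hN⟩ := eventually_atTop.1 (Metric.tendsto_nhds.1 h1 (ε / 2) (by positivity))
    refine ⟨∑ i : Fin N, cz F i • e i, ?_, Submodule.sum_mem _ fun i _ =>
      Submodule.smul_mem _ _ (Submodule.subset_span ⟨_, rfl⟩)⟩
    rw [Metric.mem_ball, dist_eq_norm]
    refine (Z_norm_le _ (ε / 2) (by positivity) fun t => ?_).trans_lt (half_lt_self hε)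
    simp only [map_sub, map_sum, map_smul, he, Pi.sub_apply]
    by_cases ht : t < N
    · have := sum_single_apply (fun i : Fin N => cz F i) Fin.val Fin.val_injective ⟨t, ht⟩
      simp only at this
      rw [this]; simpa using (half_pos hε).le
    · rw [sum_single_zero (fun i : Fin N => cz F i) Fin.val t fun i hi => ht (hi ▸ i.2),
        zero_sub, abs_neg]
      have := hN t (not_lt.1 ht)
      rw [dist_zero_right] at this
      exact this.le
  · refine ⟨k, fun n hn hN => ?_⟩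
    have e1 : cx (∑ i, a i • y (n i)) = ∑ j, a j • (Pi.single (n j) 1 : ℕ → ℝ) := by
      simp only [map_sum, map_smul, hy]
    have e2 : cz (∑ i, a i • e i) = ∑ j : Fin k, a j • (Pi.single (j : ℕ) 1 : ℕ → ℝ) := by
      simp only [map_sum, map_smul, he]
    have : ‖∑ i, a i • y (n i)‖ = ‖∑ i, a i • e i‖ := by
      apply le_antisymm
      · refine norm_le_of_Bd _ ?_
        rw [e1]
        refine sparse (S := Finset.univ.image n) (N := k)
          (sum_single_le a n hn.injective _ (norm_nonneg _) fun i => ?_) (fun t ht => ?_)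
          (fun t ht => ?_) ?_
        · have := Z_le (∑ i, a i • e i) i
          rwa [e2, sum_single_apply a Fin.val Fin.val_injective] at this
        · exact sum_single_zero a n t fun i hi => ht (Finset.mem_image.2 ⟨i, by simp, hi⟩)
        · obtain ⟨i, -, rfl⟩ := Finset.mem_image.1 ht
          exact hN i
        · exact Finset.card_image_le.trans (by simp)
      · refine Z_norm_le _ _ (norm_nonneg _) fun t => ?_
        rw [e2]
        refine sum_single_le a Fin.val Fin.val_injective _ (norm_nonneg _) (fun i => ?_) t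
        have := (Bd_of_norm_le (∑ i, a i • y (n i)) le_rfl).1 (n i)
        rwa [e1, sum_single_apply a n hn.injective] at this
    rw [this]; simpa using hε

end Aux

theorem result :
    ∃ (X : Type) (_ : NormedAddCommGroup X) (_ : NormedSpace ℝ X) (_ : CompleteSpace X)
      (Z : Type) (_ : NormedAddCommGroup Z) (_ : NormedSpace ℝ Z) (_ : CompleteSpace Z),
      IsSpreadingModel X Z ∧ kott X < kottS Z :=
  ⟨X, inferInstance, inferInstance, inferInstance, Z, inferInstance, inferInstance, inferInstance,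
    spreading, kott_X.trans_lt (lt_of_lt_of_le (by norm_num) kottS_Z)⟩

end Pool.Agent.Results.MP_7f7e2f_an.SpreadGap
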